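import Pool.Agent.Helper70.ML.St3

/-!
# Project ML (MP_a2f62e_al), module PPBK: covers of `PSL_n(F)` are quotients of `SL_n(F)`
-/

set_option autoImplicit false

namespace Pool.Agent.Helper87.ML

open Pool.Agent.Helper70.ML Pool.Agent.Helper75.MX
open scoped commutatorElement

theorem finite_SLn (n : ℕ) (F : Type) [Field F] [Finite F] : Finite (SLn n F) :=
  inferInstanceAs (Finite {A : Matrix (Fin n) (Fin n) F // A.det = 1})

theorem comm_mul_central {Q : Type} [Group Q] (z z' r r' : Q) (hz : z ∈ Subgroup.center Q)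
    (hz' : z' ∈ Subgroup.center Q) : ⁅z * r, z' * r'⁆ = ⁅r, r'⁆ := by
  rw [Subgroup.mem_center_iff] at hz hz'
  have a1 : ∀ g, z * g = g * z := fun g => (hz g).symm
  have a2 : ∀ g, z' * g = g * z' := fun g => (hz' g).symm
  simp only [commutatorElement_def, mul_inv_rev]
  calc z * r * (z' * r') * (r⁻¹ * z⁻¹) * (r'⁻¹ * z'⁻¹)
      = z * (r * (z' * (r' * (r⁻¹ * (z⁻¹ * (r'⁻¹ * z'⁻¹)))))) := by simp only [mul_assoc]
    _ = r * r' * r⁻¹ * r'⁻¹ := by
        rw [a2 (r' * (r⁻¹ * (z⁻¹ * (r'⁻¹ * z'⁻¹)))), a1]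
        have e1 : z⁻¹ * (r'⁻¹ * z'⁻¹) = (r'⁻¹ * z'⁻¹) * z⁻¹ := by
          have := a1 (r'⁻¹ * z'⁻¹)
          rw [inv_mul_eq_iff_eq_mul, ← mul_assoc, this]
          group
        rw [e1]
        simp only [mul_assoc]
        rw [← a1 z']
        group

theorem hPPBK (hPSPL : StPSPL) : StPPBK := by
  intro n F _ _ Q _ _ hn hcomm hodd ⟨e⟩
  have := finite_SLn n F
  let π : SLn n F →* SLn n F ⧸ Subgroup.center (SLn n F) :=
    QuotientGroup.mk' (Subgroup.center (SLn n F))
  let ψ : Q →* SLn n F ⧸ Subgroup.center (SLn n F) :=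
    e.toMonoidHom.comp (QuotientGroup.mk' (Subgroup.center Q))
  have hπs : Function.Surjective π := QuotientGroup.mk'_surjective _
  have hψs : Function.Surjective ψ := by
    intro y
    obtain ⟨x, hx⟩ := QuotientGroup.mk'_surjective (Subgroup.center Q) (e.symm y)
    refine ⟨x, ?_⟩
    change e (QuotientGroup.mk' (Subgroup.center Q) x) = y
    rw [hx, e.apply_symm_apply]
  have hψk : ∀ x, ψ x = 1 ↔ x ∈ Subgroup.center Q := by
    intro x
    constructor
    · intro h
      have h1 : e (QuotientGroup.mk' (Subgroup.center Q) x) = 1 := h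
      have h2 : QuotientGroup.mk' (Subgroup.center Q) x = 1 := by
        apply e.injective; rw [h1, map_one]
      exact (QuotientGroup.eq_one_iff x).1 h2
    · intro h
      have h2 : QuotientGroup.mk' (Subgroup.center Q) x = 1 := (QuotientGroup.eq_one_iff x).2 h
      change e (QuotientGroup.mk' (Subgroup.center Q) x) = 1
      rw [h2, map_one]
  have hπk : ∀ g, π g = 1 → g ∈ Subgroup.center (SLn n F) := fun g h =>
    (QuotientGroup.eq_one_iff g).1 h
  let E : Subgroup (Q × SLn n F) :=
    MonoidHom.eqLocus (ψ.comp (MonoidHom.fst Q (SLn n F))) (π.comp (MonoidHom.snd Q (SLn n F)))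
  have hE : ∀ x : Q × SLn n F, x ∈ E ↔ ψ x.1 = π x.2 := fun x => Iff.rfl
  let φ : E →* SLn n F := (MonoidHom.snd Q (SLn n F)).comp E.subtype
  have hφ : ∀ x : E, φ x = x.1.2 := fun x => rfl
  have hCE : CE φ := by
    refine ⟨?_, ?_, ?_⟩
    · intro g
      obtain ⟨x, hx⟩ := hψs (π g)
      exact ⟨⟨(x, g), (hE _).2 hx⟩, rfl⟩
    · intro x hx
      rw [MonoidHom.mem_ker, hφ] at hx
      have h1 : ψ x.1.1 = 1 := by
        have := (hE x.1).1 x.2
        rw [this, hx, map_one]
      have h2 := (hψk _).1 h1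
      rw [Subgroup.mem_center_iff] at h2 ⊢
      intro y
      apply Subtype.ext
      apply Prod.ext
      · exact h2 y.1.1
      · change y.1.2 * x.1.2 = x.1.2 * y.1.2
        rw [hx, one_mul, mul_one]
    · have hc : Nat.card φ.ker = Nat.card (Subgroup.center Q) := by
        refine Nat.card_congr
          { toFun := fun x => ⟨x.1.1.1, ?_⟩
            invFun := fun z => ⟨⟨(z.1, 1), ?_⟩, ?_⟩
            left_inv := ?_
            right_inv := ?_ }
        · have hx : x.1.1.2 = 1 := x.2
          have := (hE x.1.1).1 x.1.2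
          rw [hx, map_one] at this
          exact (hψk _).1 this
        · rw [hE]
          change ψ z.1 = π 1
          rw [map_one]
          exact (hψk _).2 z.2
        · rfl
        · intro x
          have hx : x.1.1.2 = 1 := x.2
          apply Subtype.ext
          apply Subtype.ext
          apply Prod.ext
          · rfl
          · exact hx.symm
        · intro z
          rfl
      rw [hc]; exact hodd
  obtain ⟨s, hs⟩ := hPSPL n F E φ hn hCE
  let f : SLn n F →* Q := ((MonoidHom.fst Q (SLn n F)).comp E.subtype).comp s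
  have hf : ∀ g, ψ (f g) = π g := by
    intro g
    have h1 := (hE (s g).1).1 (s g).2
    have h2 : (s g).1.2 = g := hs g
    rw [h2] at h1
    exact h1
  have hr : ∀ a : Q, ∃ z ∈ Subgroup.center Q, ∃ g, a = z * f g := by
    intro a
    obtain ⟨g, hg⟩ := hπs (ψ a)
    refine ⟨a * (f g)⁻¹, ?_, g, by group⟩
    apply (hψk _).1
    rw [map_mul, map_inv, hf, hg, mul_inv_cancel]
  have hsurj : Function.Surjective f := by
    rw [← MonoidHom.range_eq_top, ← top_le_iff, ← hcomm, commutator_def, Subgroup.commutator_le]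
    intro a _ b _
    obtain ⟨z, hz, g, rfl⟩ := hr a
    obtain ⟨z', hz', g', rfl⟩ := hr b
    rw [comm_mul_central z z' _ _ hz hz', ← map_commutatorElement]
    exact ⟨_, rfl⟩
  refine ⟨f.ker, inferInstance, ?_, ⟨(QuotientGroup.quotientKerEquivOfSurjective f hsurj).symm⟩⟩
  intro g hg
  apply hπk
  rw [← hf, (MonoidHom.mem_ker).1 hg, map_one]

end Pool.Agent.Helper87.ML
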